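import Pool.Agent.H868.TS.Jj
import Pool.Graph.R_seed8.Chud.PD1

/-!
Complete intersections in `m + 3` variables, the first `m` generators of which are products of forms such
that all choices of factors generate prime ideals: the vanishing of the syzygy.
-/

namespace Pool.Agent.H868.TP

set_option maxHeartbeats 400000
set_option linter.unusedSectionVars false

open MvPolynomial
open Pool.Agent.H868.TS
open Pool.Agent.TH61.SL (hc comp_mul hc_zero hc_hom comp_self comp_ne)
open H503R3.QCI (Homog NZD Reg homog_span)
open TH130CI (gor mem_gor SRegOn sreg_of_reg surj_of_inj ci_gor' span_insert')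

universe u

section upd

variable {K : Type*} [Field K] {ν M : ℕ}

/-- a member of a regular sequence may be replaced by a factor -/
lemma sreg_update {f : Fin M → Rv ν K} (hs : SRegOn Finset.univ f) {i0 : Fin M} {a b : Rv ν K}
    (h : f i0 = a * b) : SRegOn Finset.univ (Function.update f i0 a) := by
  classical
  have himg : ∀ T : Finset (Fin M), i0 ∉ T →
      Function.update f i0 a '' (T : Set (Fin M)) = f '' (T : Set (Fin M)) := by
    intro T hT
    apply Set.image_congr
    intro j hj
    rw [Function.update_of_ne]
    rintro rfl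
    exact hT hj
  intro T _ t _ htT
  by_cases ht : t = i0
  · subst ht
    rw [himg T htT, Function.update_self]
    intro x hx
    apply hs T (Finset.subset_univ _) t (Finset.mem_univ _) htT
    have e : f t * x = b * (a * x) := by rw [h]; ring
    rw [e]
    exact Ideal.mul_mem_left _ _ hx
  · rw [Function.update_of_ne ht]
    by_cases hT : i0 ∈ T
    · obtain ⟨T', hT', rfl⟩ : ∃ T' : Finset (Fin M), i0 ∉ T' ∧ T = insert i0 T' :=
        ⟨T.erase i0, Finset.notMem_erase _ _, (Finset.insert_erase hT).symm⟩
      have htT' : t ∉ T' := fun h1 => htT (Finset.mem_insert_of_mem h1)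
      rw [span_insert', himg T' hT', Function.update_self]
      intro x hx
      obtain ⟨α, hα⟩ := mem_sup'.1 hx
      have h1 : f t * (b * x) ∈ Ideal.span (f '' ((insert i0 T' : Finset (Fin M)) : Set (Fin M))) := by
        rw [span_insert', mem_sup']
        refine ⟨α, ?_⟩
        have e : f t * (b * x) - f i0 * α = b * (f t * x - a * α) := by rw [h]; ring
        rw [e]
        exact Ideal.mul_mem_left _ _ hα
      have h2 := hs (insert i0 T') (Finset.subset_univ _) t (Finset.mem_univ _) htT _ h1
      rw [span_insert', mem_sup'] at h2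
      obtain ⟨y, hy⟩ := h2
      rw [mem_sup']
      refine ⟨y, hs T' (Finset.subset_univ _) i0 (Finset.mem_univ _) hT' _ ?_⟩
      have e : f i0 * (x - a * y) = a * (b * x - f i0 * y) := by rw [h]; ring
      rw [e]
      exact Ideal.mul_mem_left _ _ hy
    · rw [himg T hT]
      exact hs T (Finset.subset_univ _) t (Finset.mem_univ _) htT

lemma reg_of_sreg {f : Fin M → Rv ν K} (hs : SRegOn Finset.univ f) : Reg f := by
  classical
  intro i
  have h1 := hs (Finset.univ.filter fun j => j < i) (Finset.subset_univ _) i (Finset.mem_univ _)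
    (by rw [Finset.mem_filter]; rintro ⟨-, h⟩; exact lt_irrefl _ h)
  have h2 : ((Finset.univ.filter fun j => j < i : Finset (Fin M)) : Set (Fin M)) = {j | j < i} := by
    ext j
    simp
  rwa [h2] at h1

end upd

section comp

variable {K : Type*} [Field K] {ν : ℕ}

lemma comp_inI {P : Ideal (Rv ν K)} {Y : RTv ν K} (h : InI P Y) (r : ℕ) :
    InI P (homogeneousComponent r Y) := fun m => by
  rw [coeff_homogeneousComponent]
  split_ifs
  · exact h m
  · exact P.zero_mem

lemma comp_JJ {P : Ideal (Rv ν K)} {Y : RTv ν K} (h : Y ∈ JJ P) (r : ℕ) :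
    homogeneousComponent r Y ∈ JJ P := by
  obtain ⟨s, hs⟩ := mem_JJ.1 h
  refine mem_JJ.2 ⟨hc 1 r s, ?_⟩
  have h1 := comp_inI hs r
  rwa [map_sub, mul_comm, comp_mul gl_hom, mul_comm] at h1

/-- division by a form, with the right degrees -/
lemma rep_deg {P : Ideal (Rv ν K)} (hPh : Homog P) {f : Rv ν K} {a : ℕ} (hf : f.IsHomogeneous a)
    {Y : RTv ν K} {n r : ℕ} (hX : XH n Y) (ht : Y.IsHomogeneous r)
    (h : Y ∈ JJ (P ⊔ Ideal.span {f})) :
    ∃ w : RTv ν K, Y - C f * w ∈ JJ P ∧ w.IsHomogeneous r ∧ (n < a → w = 0) ∧ XH (n - a) w := by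
  obtain ⟨ω, hω⟩ := JJ_sup h
  have h1 := comp_JJ (div_hom hPh hf hX hω) r
  rw [map_sub, comp_self ht, ← smul_eq_C_mul, map_smul, smul_eq_C_mul] at h1
  refine ⟨_, h1, homogeneousComponent_isHomogeneous _ _, ?_, ?_⟩
  · intro hn
    rw [hcx_zero hn, map_zero]
  · intro m
    rw [coeff_homogeneousComponent]
    split_ifs
    · rw [hcx]
      split_ifs
      · exact cx_XH _ _ m
      · rw [coeff_zero]; exact isHomogeneous_zero _ _ _
    · exact isHomogeneous_zero _ _ _

/-- cancellation of a factor -/
lemma cancel {J : Ideal (Rv ν K)} {a b : Rv ν K} (ha : ∀ x, a * x ∈ J → x ∈ J)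
    (hs : Sat (J ⊔ Ideal.span {a})) {Z : RTv ν K} (hZ : C a * Z ∈ JJ (J ⊔ Ideal.span {a * b})) :
    Z ∈ JJ (J ⊔ Ideal.span {b}) := by
  obtain ⟨ω, hω⟩ := JJ_sup hZ
  have h1 : C a * (Z - C b * ω) ∈ JJ J := by
    convert hω using 1
    rw [C_mul]
    ring
  have h2 := JJ_nzd ha hs h1
  have h3 : Z = (Z - C b * ω) + C b * ω := by ring
  rw [h3]
  refine (JJ _).add_mem (JJ_mono le_sup_left h2) (JJ_of_inI fun m => ?_)
  rw [coeff_C_mul]
  exact Ideal.mul_mem_right _ _ (Ideal.mem_sup_right (Ideal.mem_span_singleton_self _))

end comp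

section main

variable {K : Type u} [Field K] {m : ℕ}

lemma ii_inj {j j' : Fin m} (h : (ii j : Fin (m + 3)) = ii j') : j = j' :=
  Fin.ext (congrArg (fun i : Fin (m + 3) => (i : ℕ)) h)

lemma kk_ne (a : Fin 3) (j : Fin m) : (kk a : Fin (m + 3)) ≠ ii j := by
  intro h
  have h1 := congrArg Fin.val h
  change m + (a : ℕ) = (j : ℕ) at h1
  have := j.2
  omega

/-- the ideal of the first `m` generators except one -/
noncomputable def P0 (f : Fin (m + 3) → Rv (m + 3) K) (j0 : Fin m) : Ideal (Rv (m + 3) K) :=
  Ideal.span (f '' {j | (j : ℕ) < m ∧ j ≠ ii j0})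

lemma PP_update (f : Fin (m + 3) → Rv (m + 3) K) (j0 : Fin m) (c : Rv (m + 3) K) :
    PP (Function.update f (ii j0) c) = P0 f j0 ⊔ Ideal.span {c} := by
  classical
  rw [PP, P0, ← Ideal.span_union]
  congr 1
  ext x
  constructor
  · rintro ⟨j, hj, rfl⟩
    by_cases h : j = ii j0
    · right
      rw [h, Function.update_self]
      rfl
    · left
      exact ⟨j, ⟨hj, h⟩, by rw [Function.update_of_ne h]⟩
  · rintro (⟨j, ⟨hj, h⟩, rfl⟩ | h)
    · exact ⟨j, hj, by rw [Function.update_of_ne h]⟩
    · refine ⟨ii j0, j0.2, ?_⟩
      rw [Function.update_self]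
      exact (Set.mem_singleton_iff.1 h).symm

lemma PP_self (f : Fin (m + 3) → Rv (m + 3) K) (j0 : Fin m) :
    PP f = P0 f j0 ⊔ Ideal.span {f (ii j0)} := by
  rw [← PP_update, Function.update_eq_self]

lemma P0_homog {f : Fin (m + 3) → Rv (m + 3) K} {d : Fin (m + 3) → ℕ}
    (hf : ∀ i, (f i).IsHomogeneous (d i)) (j0 : Fin m) : Homog (P0 f j0) :=
  homog_span (by rintro _ ⟨j, _, rfl⟩; exact ⟨d j, hf j⟩)

lemma PP_homog {f : Fin (m + 3) → Rv (m + 3) K} {d : Fin (m + 3) → ℕ}
    (hf : ∀ i, (f i).IsHomogeneous (d i)) : Homog (PP f) :=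
  homog_span (by rintro _ ⟨j, _, rfl⟩; exact ⟨d j, hf j⟩)

lemma P0_nzd {f : Fin (m + 3) → Rv (m + 3) K} (hs : SRegOn Finset.univ f) (j0 : Fin m) :
    ∀ x, f (ii j0) * x ∈ P0 f j0 → x ∈ P0 f j0 := by
  classical
  have h1 := hs (Finset.univ.filter fun j => (j : ℕ) < m ∧ j ≠ ii j0) (Finset.subset_univ _) (ii j0)
    (Finset.mem_univ _) (by rw [Finset.mem_filter]; rintro ⟨-, -, h⟩; exact h rfl)
  have h2 : ((Finset.univ.filter fun j => (j : ℕ) < m ∧ j ≠ ii j0 : Finset (Fin (m + 3))) :
      Set (Fin (m + 3))) = {j : Fin (m + 3) | (j : ℕ) < m ∧ j ≠ ii j0} := by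
    ext j
    simp
  rw [h2] at h1
  exact h1

lemma ne_zero_of_sreg {M ν : ℕ} {f : Fin M → Rv ν K} (hs : SRegOn Finset.univ f) (i : Fin M) :
    f i ≠ 0 := by
  intro h0
  have h1 := hs ∅ (Finset.subset_univ _) i (Finset.mem_univ _) (Finset.notMem_empty _) 1 (by
    rw [h0, zero_mul]
    exact Ideal.zero_mem _)
  rw [Finset.coe_empty, Set.image_empty, Ideal.span_empty, Ideal.mem_bot] at h1
  exact one_ne_zero h1

/-- **the syzygy vanishes, given that the Wronskians vanish** -/
theorem all_aux [CharZero K] (n : ℕ) : ∀ (p : Fin m → List (Rv (m + 3) K)),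
    (∑ j, (p j).length ≤ n) → ∀ {f : Fin (m + 3) → Rv (m + 3) K} {d : Fin (m + 3) → ℕ},
    (∀ i, (f i).IsHomogeneous (d i)) → (∀ i, 1 ≤ d i) → Reg f →
    (∀ j, f (ii j) = (p j).prod) →
    (∀ κ : Fin m → Rv (m + 3) K, (∀ j, κ j ∈ p j) → (Ideal.span (Set.range κ)).IsPrime) →
    ∀ {σ : Equiv.Perm (Fin 3)} {N r : ℕ} {v : Fin 3 → RTv (m + 3) K},
    d (kk (σ 0)) ≤ d (kk (σ 1)) → d (kk (σ 1)) ≤ d (kk (σ 2)) →
    N < d (kk (σ 0)) + d (kk (σ 1)) →
    2 * N + 1 ≤ d (kk (σ 0)) + d (kk (σ 1)) + d (kk (σ 2)) →
    (∀ a, DX (d (kk (σ a))) N (v a)) → (∀ a, (v a).IsHomogeneous r) →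
    C (f (kk (σ 0))) * v 0 + C (f (kk (σ 1))) * v 1 + C (f (kk (σ 2))) * v 2 ∈ JJ (PP f) →
    (∀ j k c, Om v j k c ∈ JJ (PP f)) → ∀ j, v j ∈ JJ (PP f) := by
  classical
  induction n with
  | zero =>
    intro p hlen f d hf hd hreg hp hκ σ N r v h01 h12 hN hN2 hv hvt hrel hO j
    have hlj : ∀ j, (p j).length = 0 := by
      intro j
      have h1 := Finset.single_le_sum (f := fun j => (p j).length) (fun _ _ => Nat.zero_le _)
        (Finset.mem_univ j)
      have h2 : (p j).length ≤ ∑ j, (p j).length := h1
      omega
    have hPp : (PP f).IsPrime := by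
      rw [PP_eq]
      apply hκ
      intro j
      exfalso
      have h1 := hp j
      rw [List.length_eq_zero_iff.1 (hlj j), List.prod_nil] at h1
      have h2 := hf (ii j)
      rw [h1] at h2
      have h3 := h2.inj_right (isHomogeneous_one _ _) one_ne_zero
      have := hd (ii j)
      omega
    have hn := regMod hf hd hreg
    exact irr_main (F := fun a => f (kk (σ a))) (d := fun a => d (kk (σ a))) (by omega)
      (fun j => hf (ii j)) (fun j => hd _) (reg_ii hreg) PP_eq hPp (fun a => hf _) (fun a => hd _)
      (fun a b c hab hac hbc => hn (σ a) (σ b) (σ c) (σ.injective.ne hab) (σ.injective.ne hac)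
        (σ.injective.ne hbc)) h01 h12 hN hv hvt hrel hO j
  | succ n ih =>
    intro p hlen f d hf hd hreg hp hκ σ N r v h01 h12 hN hN2 hv hvt hrel hO j
    have hs := sreg_of_reg hf hd hreg
    have hne : ∀ j, p j ≠ [] := by
      intro j h0
      have h1 := hp j
      rw [h0, List.prod_nil] at h1
      have h2 := hf (ii j)
      rw [h1] at h2
      have h3 := h2.inj_right (isHomogeneous_one _ _) one_ne_zero
      have := hd (ii j)
      omega
    by_cases hlong : ∃ j0, 2 ≤ (p j0).length
    · obtain ⟨j0, hj0⟩ := hlong
      obtain ⟨a, l, hal⟩ : ∃ a l, p j0 = a :: l := by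
        rcases hp0 : p j0 with _ | ⟨a, l⟩
        · exact absurd hp0 (hne j0)
        · exact ⟨a, l, rfl⟩
      have hl1 : 1 ≤ l.length := by
        rw [hal, List.length_cons] at hj0
        omega
      set q := l.prod with hq
      have hfa : f (ii j0) = a * q := by rw [hp j0, hal, List.prod_cons]
      have hf0 : f (ii j0) ≠ 0 := ne_zero_of_sreg hs _
      have ha0 : a ≠ 0 := by rintro rfl; rw [zero_mul] at hfa; exact hf0 hfa
      have hq0 : q ≠ 0 := by intro h; rw [h, mul_zero] at hfa; exact hf0 hfa
      have hh1 := Pool.Agent.Chud.homog_of_dvd (hf (ii j0)) hf0 (Dvd.intro _ hfa.symm)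
      have hh2 := Pool.Agent.Chud.homog_of_dvd (hf (ii j0)) hf0 (Dvd.intro_left _ hfa.symm)
      have hdeg := (hf (ii j0)).totalDegree hf0
      rw [hfa, totalDegree_mul_of_isDomain ha0 hq0] at hdeg
      -- the factors are not constant
      have hpos : ∀ x ∈ p j0, x ≠ 0 → 1 ≤ x.totalDegree := by
        intro x hx hx0
        by_contra hcon
        have h1 := totalDegree_eq_zero_iff_eq_C.1 (by omega : x.totalDegree = 0)
        have hκ0 : ∀ j, ∃ y, y ∈ p j := fun j => List.exists_mem_of_ne_nil _ (hne j)
        choose κ hκ1 using hκ0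
        have hpr := hκ (Function.update κ j0 x) (by
          intro j
          by_cases hj : j = j0
          · subst hj
            rw [Function.update_self]
            exact hx
          · rw [Function.update_of_ne hj]
            exact hκ1 j)
        apply hpr.ne_top
        rw [Ideal.eq_top_iff_one]
        have h2 : x ∈ Ideal.span (Set.range (Function.update κ j0 x)) :=
          Ideal.subset_span ⟨j0, Function.update_self _ _ _⟩
        have h3 : coeff 0 x ≠ 0 := by
          intro h0
          rw [h0, C_0] at h1
          exact hx0 h1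
        have h4 : (1 : Rv (m + 3) K) = C (coeff 0 x)⁻¹ * x := by
          nth_rewrite 2 [h1]
          rw [← C_mul, inv_mul_cancel₀ h3, C_1]
        rw [h4]
        exact Ideal.mul_mem_left _ _ h2
      have hda : 1 ≤ a.totalDegree := hpos a (by rw [hal]; exact List.mem_cons_self) ha0
      have hdq : 1 ≤ q.totalDegree := by
        obtain ⟨b, t, hbt⟩ : ∃ b t, l = b :: t := by
          rcases hl0 : l with _ | ⟨b, t⟩
          · rw [hl0] at hl1
            simp at hl1
          · exact ⟨b, t, rfl⟩
        have hqb : q = b * t.prod := by rw [hq, hbt, List.prod_cons]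
        have hb0 : b ≠ 0 := by rintro rfl; rw [zero_mul] at hqb; exact hq0 hqb
        have ht0 : t.prod ≠ 0 := by intro h; rw [h, mul_zero] at hqb; exact hq0 hqb
        rw [hqb, totalDegree_mul_of_isDomain hb0 ht0]
        have := hpos b (by rw [hal, hbt]; exact List.mem_cons_of_mem _ List.mem_cons_self) hb0
        omega
      -- the two smaller complete intersections
      set f1 := Function.update f (ii j0) a with hf1
      set f2 := Function.update f (ii j0) q with hf2
      set d1 := Function.update d (ii j0) a.totalDegree with hd1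
      set d2 := Function.update d (ii j0) q.totalDegree with hd2
      have hs1 : SRegOn Finset.univ f1 := sreg_update hs hfa
      have hs2 : SRegOn Finset.univ f2 := sreg_update hs (by rw [hfa, mul_comm])
      have hf1h : ∀ i, (f1 i).IsHomogeneous (d1 i) := by
        intro i
        by_cases hi : i = ii j0
        · rw [hi, hf1, hd1, Function.update_self, Function.update_self]
          exact hh1
        · rw [hf1, hd1, Function.update_of_ne hi, Function.update_of_ne hi]
          exact hf i
      have hf2h : ∀ i, (f2 i).IsHomogeneous (d2 i) := by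
        intro i
        by_cases hi : i = ii j0
        · rw [hi, hf2, hd2, Function.update_self, Function.update_self]
          exact hh2
        · rw [hf2, hd2, Function.update_of_ne hi, Function.update_of_ne hi]
          exact hf i
      have hd1p : ∀ i, 1 ≤ d1 i := by
        intro i
        by_cases hi : i = ii j0
        · rw [hi, hd1, Function.update_self]
          exact hda
        · rw [hd1, Function.update_of_ne hi]
          exact hd i
      have hd2p : ∀ i, 1 ≤ d2 i := by
        intro i
        by_cases hi : i = ii j0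
        · rw [hi, hd2, Function.update_self]
          exact hdq
        · rw [hd2, Function.update_of_ne hi]
          exact hd i
      have hk1 : ∀ a, f1 (kk a) = f (kk a) := fun a => Function.update_of_ne (kk_ne a j0) _ _
      have hk2 : ∀ a, f2 (kk a) = f (kk a) := fun a => Function.update_of_ne (kk_ne a j0) _ _
      have hdk1 : ∀ a, d1 (kk a) = d (kk a) := fun a => Function.update_of_ne (kk_ne a j0) _ _
      have hdk2 : ∀ a, d2 (kk a) = d (kk a) := fun a => Function.update_of_ne (kk_ne a j0) _ _
      have hreg1 := reg_of_sreg hs1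
      have hreg2 := reg_of_sreg hs2
      have hP1 : PP f1 = P0 f j0 ⊔ Ideal.span {a} := PP_update f j0 a
      have hP2 : PP f2 = P0 f j0 ⊔ Ideal.span {q} := PP_update f j0 q
      have hPf : PP f = P0 f j0 ⊔ Ideal.span {a * q} := by rw [← hfa]; exact PP_self f j0
      have hle1 : PP f ≤ PP f1 := by
        rw [hPf, hP1]
        refine sup_le_sup_left ?_ _
        rw [Ideal.span_singleton_le_span_singleton]
        exact Dvd.intro _ rfl
      have hlen1 : ∑ j, (Function.update p j0 [a] j).length ≤ n := by
        have h1 : ∑ j, (Function.update p j0 [a] j).length < ∑ j, (p j).length := by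
          refine Finset.sum_lt_sum (fun j _ => ?_) ⟨j0, Finset.mem_univ _, ?_⟩
          · by_cases hj : j = j0
            · subst hj
              rw [Function.update_self, List.length_singleton]
              omega
            · rw [Function.update_of_ne hj]
          · rw [Function.update_self, List.length_singleton]
            omega
        omega
      have hlen2 : ∑ j, (Function.update p j0 l j).length ≤ n := by
        have h1 : ∑ j, (Function.update p j0 l j).length < ∑ j, (p j).length := by
          refine Finset.sum_lt_sum (fun j _ => ?_) ⟨j0, Finset.mem_univ _, ?_⟩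
          · by_cases hj : j = j0
            · subst hj
              rw [Function.update_self, hal, List.length_cons]
              omega
            · rw [Function.update_of_ne hj]
          · rw [Function.update_self, hal, List.length_cons]
            omega
        omega
      have hp1 : ∀ j, f1 (ii j) = (Function.update p j0 [a] j).prod := by
        intro j
        by_cases hj : j = j0
        · subst hj
          rw [hf1, Function.update_self, Function.update_self, List.prod_singleton]
        · rw [hf1, Function.update_of_ne hj, Function.update_of_ne fun h => hj (ii_inj h)]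
          exact hp j
      have hp2 : ∀ j, f2 (ii j) = (Function.update p j0 l j).prod := by
        intro j
        by_cases hj : j = j0
        · subst hj
          rw [hf2, Function.update_self, Function.update_self]
        · rw [hf2, Function.update_of_ne hj, Function.update_of_ne fun h => hj (ii_inj h)]
          exact hp j
      have hκ1 : ∀ κ : Fin m → Rv (m + 3) K, (∀ j, κ j ∈ Function.update p j0 [a] j) →
          (Ideal.span (Set.range κ)).IsPrime := by
        intro κ h
        apply hκ
        intro j
        have h1 := h j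
        by_cases hj : j = j0
        · subst hj
          rw [Function.update_self, List.mem_singleton] at h1
          rw [h1, hal]
          exact List.mem_cons_self
        · rwa [Function.update_of_ne hj] at h1
      have hκ2 : ∀ κ : Fin m → Rv (m + 3) K, (∀ j, κ j ∈ Function.update p j0 l j) →
          (Ideal.span (Set.range κ)).IsPrime := by
        intro κ h
        apply hκ
        intro j
        have h1 := h j
        by_cases hj : j = j0
        · subst hj
          rw [Function.update_self] at h1
          rw [hal]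
          exact List.mem_cons_of_mem _ h1
        · rwa [Function.update_of_ne hj] at h1
      have hn1 := regMod hf1h hd1p hreg1
      have hn2 := regMod hf2h hd2p hreg2
      have v1 : ∀ j, v j ∈ JJ (PP f1) := by
        refine ih _ hlen1 hf1h hd1p hreg1 hp1 hκ1 (σ := σ) (N := N) (r := r) (v := v)
          ?_ ?_ ?_ ?_ ?_ hvt ?_ fun j k c => JJ_mono hle1 (hO j k c)
        · simpa only [hdk1] using h01
        · simpa only [hdk1] using h12
        · simpa only [hdk1] using hN
        · simpa only [hdk1] using hN2
        · simpa only [hdk1] using hv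
        · simpa only [hk1] using JJ_mono hle1 hrel
      have hP0h := P0_homog hf j0
      have hex : ∀ j, ∃ w : RTv (m + 3) K, v j - C a * w ∈ JJ (P0 f j0) ∧ w.IsHomogeneous r ∧
          (N < a.totalDegree → w = 0) ∧ DX (d (kk (σ j))) (N - a.totalDegree) w := by
        intro j
        rcases hv j with h0 | ⟨n', hn', hX⟩
        · refine ⟨0, ?_, isHomogeneous_zero _ _ _, fun _ => rfl, Or.inl rfl⟩
          rw [h0, mul_zero, sub_zero]
          exact (JJ _).zero_mem
        · have h1 := v1 j
          rw [hP1] at h1
          obtain ⟨w, h2, h3, h4, h5⟩ := rep_deg hP0h hh1 hX (hvt j) h1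
          refine ⟨w, h2, h3, fun h => h4 (by omega), ?_⟩
          by_cases hn0 : n' < a.totalDegree
          · exact Or.inl (h4 hn0)
          · exact Or.inr ⟨n' - a.totalDegree, by omega, h5⟩
      choose w hw1 hwt hw0 hwx using hex
      have hle0 : P0 f j0 ≤ PP f := by rw [hPf]; exact le_sup_left
      have hfin : ∀ j, w j ∈ JJ (PP f2) → v j ∈ JJ (PP f) := by
        intro j hwj
        rw [hP2] at hwj
        obtain ⟨ω, hω⟩ := JJ_sup hwj
        have h3 : v j = (v j - C a * w j) + C a * (w j - C q * ω) + C (a * q) * ω := by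
          rw [C_mul]
          ring
        rw [h3]
        refine (JJ _).add_mem ((JJ _).add_mem (JJ_mono hle0 (hw1 j))
          ((JJ _).mul_mem_left _ (JJ_mono hle0 hω))) (JJ_of_inI fun m => ?_)
        rw [coeff_C_mul]
        apply Ideal.mul_mem_right
        rw [hPf]
        exact Ideal.mem_sup_right (Ideal.mem_span_singleton_self _)
      apply hfin
      by_cases hNa : N < a.totalDegree
      · rw [hw0 j hNa]
        exact (JJ _).zero_mem
      have hna : ∀ x, a * x ∈ P0 f j0 → x ∈ P0 f j0 := by
        intro x hx
        apply P0_nzd hs j0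
        have e : f (ii j0) * x = q * (a * x) := by rw [hfa]; ring
        rw [e]
        exact Ideal.mul_mem_left _ _ hx
      have hsat1 : Sat (P0 f j0 ⊔ Ideal.span {a}) := by
        rw [← hP1]
        exact (rp_of_reg (fun a => hf1h (kk a)) (fun a => hd1p _) hn1).sat
      have hrel2 : C (f (kk (σ 0))) * w 0 + C (f (kk (σ 1))) * w 1 + C (f (kk (σ 2))) * w 2
          ∈ JJ (PP f2) := by
        rw [hP2]
        apply cancel hna hsat1
        rw [← hPf]
        have h1 : C a * (C (f (kk (σ 0))) * w 0 + C (f (kk (σ 1))) * w 1 + C (f (kk (σ 2))) * w 2)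
            = (C (f (kk (σ 0))) * v 0 + C (f (kk (σ 1))) * v 1 + C (f (kk (σ 2))) * v 2)
              - (C (f (kk (σ 0))) * (v 0 - C a * w 0) + C (f (kk (σ 1))) * (v 1 - C a * w 1)
                + C (f (kk (σ 2))) * (v 2 - C a * w 2)) := by
          ring
        rw [h1]
        exact (JJ _).sub_mem hrel ((JJ _).add_mem ((JJ _).add_mem
          ((JJ _).mul_mem_left _ (JJ_mono hle0 (hw1 0)))
          ((JJ _).mul_mem_left _ (JJ_mono hle0 (hw1 1))))
          ((JJ _).mul_mem_left _ (JJ_mono hle0 (hw1 2))))
      have hn2σ : RegMod (PP f2) (fun a => f (kk (σ a))) := by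
        intro a b c hab hac hbc
        have h1 := hn2 (σ a) (σ b) (σ c) (σ.injective.ne hab) (σ.injective.ne hac)
          (σ.injective.ne hbc)
        simp only [hk2] at h1
        exact h1
      have hR2 := rp_of_reg (F := fun a => f (kk (σ a))) (d := fun a => d (kk (σ a)))
        (fun a => hf _) (fun a => hd _) hn2σ
      have hO2 : ∀ j k c, Om w j k c ∈ JJ (PP f2) :=
        omega_zero_small (F := fun a => f (kk (σ a))) (d := fun a => d (kk (σ a)))
          (PP_homog hf2h) (fun a => hf _) hR2.n0 hR2.n1 hR2.n01 hrel2 (N := N - a.totalDegree)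
          (s := d (kk (σ 0)) + d (kk (σ 1)) + d (kk (σ 2)) - (2 * (N - a.totalDegree) + 1))
          hwx (by omega) (by omega)
      refine ih _ hlen2 hf2h hd2p hreg2 hp2 hκ2 (σ := σ) (N := N - a.totalDegree) (r := r) (v := w)
          ?_ ?_ ?_ ?_ ?_ hwt ?_ hO2 j
      · simpa only [hdk2] using h01
      · simpa only [hdk2] using h12
      · simp only [hdk2]
        omega
      · simp only [hdk2]
        omega
      · simpa only [hdk2] using hwx
      · simpa only [hk2] using hrel2
    · push Not at hlong
      have hPp : (PP f).IsPrime := by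
        rw [PP_eq]
        apply hκ
        intro j
        have h1 := hlong j
        rcases hp0 : p j with _ | ⟨a, l⟩
        · exact absurd hp0 (hne j)
        · rw [hp0, List.length_cons] at h1
          have h2 : l = [] := List.length_eq_zero_iff.1 (by omega)
          rw [hp j, hp0, h2, List.prod_singleton]
          exact List.mem_singleton.2 rfl
      have hn := regMod hf hd hreg
      exact irr_main (F := fun a => f (kk (σ a))) (d := fun a => d (kk (σ a))) (by omega)
        (fun j => hf (ii j)) (fun j => hd _) (reg_ii hreg) PP_eq hPp (fun a => hf _) (fun a => hd _)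
        (fun a b c hab hac hbc => hn (σ a) (σ b) (σ c) (σ.injective.ne hab) (σ.injective.ne hac)
          (σ.injective.ne hbc)) h01 h12 hN hv hvt hrel hO j

end main

end Pool.Agent.H868.TP
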