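import Pool.Agent.H868.TP.B

/-!
Linear forms generate prime ideals; the final form of the theorem.
-/

namespace Pool.Agent.H868.TP

set_option maxHeartbeats 400000
set_option linter.unusedSectionVars false

open MvPolynomial
open Pool.Agent.H868.TS
open H503R3.QCI (Homog NZD Reg homog_span)

universe u

variable {K : Type u} [Field K] {ν : ℕ}

lemma lf_add (a b : Fin ν → K) : lf (a + b) = lf a + lf b := by
  rw [lf, lf, lf, ← Finset.sum_add_distrib]
  refine Finset.sum_congr rfl fun k _ => ?_
  rw [Pi.add_apply, C_add, add_mul]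

lemma lf_smul (c : K) (a : Fin ν → K) : lf (c • a) = C c * lf a := by
  rw [lf, lf, Finset.mul_sum]
  refine Finset.sum_congr rfl fun k _ => ?_
  rw [Pi.smul_apply, smul_eq_mul, C_mul, mul_assoc]

lemma lf_sub (a b : Fin ν → K) : lf (a - b) = lf a - lf b := by
  rw [lf, lf, lf, ← Finset.sum_sub_distrib]
  refine Finset.sum_congr rfl fun k _ => ?_
  rw [Pi.sub_apply, C_sub, sub_mul]

/-- linear forms generate a prime ideal -/
theorem prime_lin {m : ℕ} (A : Fin m → Fin ν → K) :
    (Ideal.span (Set.range fun j => lf (A j))).IsPrime := by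
  classical
  set U : Submodule K (Fin ν → K) := Submodule.span K (Set.range A) with hU
  set I : Ideal (Rv ν K) := Ideal.span (Set.range fun j => lf (A j)) with hI
  obtain ⟨U', hUU'⟩ := Submodule.exists_isCompl U
  -- the projection with kernel `U`
  let π : (Fin ν → K) →ₗ[K] (Fin ν → K) := U'.subtype ∘ₗ (U'.projectionOnto U hUU'.symm)
  have hπU : ∀ a ∈ U, π a = 0 := by
    intro a ha
    have h1 : U'.projectionOnto U hUU'.symm a = 0 := by
      rw [← LinearMap.mem_ker, Submodule.ker_projectionOnto]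
      exact ha
    change (U'.projectionOnto U hUU'.symm a : Fin ν → K) = 0
    rw [h1]
    rfl
  have hπ : ∀ a, a - π a ∈ U := by
    intro a
    obtain ⟨b, hb, c, hc', rfl⟩ : ∃ b ∈ U, ∃ c ∈ U', b + c = a := by
      have h1 : a ∈ U ⊔ U' := by rw [hUU'.sup_eq_top]; exact Submodule.mem_top
      exact Submodule.mem_sup.1 h1
    have h2 : π c = c := by
      change (U'.projectionOnto U hUU'.symm c : Fin ν → K) = c
      have h3 := Submodule.projectionOnto_apply_left hUU'.symm ⟨c, hc'⟩
      rw [h3]
    rw [map_add, hπU b hb, h2, zero_add, add_sub_cancel_right]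
    exact hb
  have hlfU : ∀ a ∈ U, lf a ∈ I := by
    intro a ha
    refine Submodule.span_induction ?_ ?_ ?_ ?_ ha
    · rintro _ ⟨j, rfl⟩
      exact Ideal.subset_span ⟨j, rfl⟩
    · have : lf (0 : Fin ν → K) = 0 := by
        rw [lf]
        simp
      rw [this]
      exact I.zero_mem
    · intro x y _ _ hx hy
      rw [lf_add]
      exact I.add_mem hx hy
    · intro c x _ hx
      rw [lf_smul]
      exact I.mul_mem_left _ hx
  let θ : Rv ν K →ₐ[K] Rv ν K := aeval fun k => lf (π (Pi.single k 1))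
  have hX : ∀ k : Fin ν, lf (Pi.single k (1 : K)) = X k := by
    intro k
    rw [lf, Finset.sum_eq_single k]
    · rw [Pi.single_eq_same, C_1, one_mul]
    · intro b _ hb
      rw [Pi.single_eq_of_ne hb, C_0, zero_mul]
    · intro h
      exact absurd (Finset.mem_univ k) h
  have hθlf : ∀ a : Fin ν → K, θ (lf a) = lf (π a) := by
    intro a
    have h1 : a = ∑ k, a k • (Pi.single k (1 : K) : Fin ν → K) := by
      ext j
      rw [Finset.sum_apply, Finset.sum_eq_single j]
      · rw [Pi.smul_apply, Pi.single_eq_same, smul_eq_mul, mul_one]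
      · intro b _ hb
        rw [Pi.smul_apply, Pi.single_eq_of_ne hb.symm, smul_zero]
      · intro h
        exact absurd (Finset.mem_univ j) h
    have hsum : ∀ (g : Fin ν → Fin ν → K), lf (∑ k, g k) = ∑ k, lf (g k) := by
      intro g
      have : ∀ s : Finset (Fin ν), lf (∑ k ∈ s, g k) = ∑ k ∈ s, lf (g k) := by
        intro s
        induction s using Finset.induction_on with
        | empty =>
          rw [Finset.sum_empty, Finset.sum_empty, lf]
          simp
        | insert x s hx ih => rw [Finset.sum_insert hx, Finset.sum_insert hx, lf_add, ih]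
      exact this _
    have h2 : π a = ∑ k, a k • π (Pi.single k (1 : K)) := by
      conv_lhs => rw [h1]
      rw [map_sum]
      exact Finset.sum_congr rfl fun k _ => by rw [map_smul]
    rw [h2, hsum, lf, map_sum]
    refine Finset.sum_congr rfl fun k _ => ?_
    rw [lf_smul, map_mul, aeval_X, algHom_C]
    rfl
  have hmem : ∀ x : Rv ν K, x - θ x ∈ I := by
    intro x
    induction x using MvPolynomial.induction_on with
    | C a =>
      rw [algHom_C, algebraMap_eq, sub_self]
      exact I.zero_mem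
    | add p q hp hq =>
      rw [map_add]
      have e : p + q - (θ p + θ q) = (p - θ p) + (q - θ q) := by ring
      rw [e]
      exact I.add_mem hp hq
    | mul_X p k hp =>
      rw [map_mul]
      have e : p * X k - θ p * θ (X k) = (p - θ p) * X k + θ p * (X k - θ (X k)) := by ring
      rw [e]
      refine I.add_mem (Ideal.mul_mem_right _ _ hp) (Ideal.mul_mem_left _ _ ?_)
      rw [← hX k, hθlf]
      rw [← lf_sub]
      exact hlfU _ (hπ _)
  have hker : I = RingHom.ker (θ : Rv ν K →+* Rv ν K) := by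
    apply le_antisymm
    · rw [Ideal.span_le]
      rintro _ ⟨j, rfl⟩
      change (θ : Rv ν K →+* Rv ν K) (lf (A j)) = 0
      change θ (lf (A j)) = 0
      rw [hθlf, hπU _ (Submodule.subset_span ⟨j, rfl⟩), lf]
      simp
    · intro x hx
      have h1 := hmem x
      have h2 : θ x = 0 := hx
      rwa [h2, sub_zero] at h1
  rw [hker]
  exact RingHom.ker_isPrime _

/-- **main theorem**, with linear factors -/
theorem main_lin [CharZero K] {m : ℕ} (hm : 1 ≤ m) {f : Fin (m + 3) → Rv (m + 3) K}
    {d : Fin (m + 3) → ℕ} (hf : ∀ i, (f i).IsHomogeneous (d i)) (hd : ∀ i, 1 ≤ d i)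
    (hreg : Reg f) (p : Fin m → List (Rv (m + 3) K)) (hp : ∀ j, f (ii j) = (p j).prod)
    (hκ : ∀ κ : Fin m → Rv (m + 3) K, (∀ j, κ j ∈ p j) →
      (∀ j, (κ j).IsHomogeneous 1) ∨ (Ideal.span (Set.range κ)).IsPrime)
    (h2 : ∀ j : Fin m, 2 ≤ d (ii j)) :
    ∃ ℓ : Rv (m + 3) K, ℓ.IsHomogeneous 1 ∧ ∀ i j : ℕ,
      (2 * (i + j) + 1 ≤ d (kk 0) + d (kk 1) + d (kk 2) → ∀ p : Rv (m + 3) K, p.IsHomogeneous i →
        ℓ ^ j * p ∈ Ideal.span (Set.range f) → p ∈ Ideal.span (Set.range f)) ∧
      (2 * (∑ j, (d j - 1)) + 1 ≤ 2 * i + (d (kk 0) + d (kk 1) + d (kk 2)) →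
        ∀ p : Rv (m + 3) K, p.IsHomogeneous (i + j) →
        ∃ r : Rv (m + 3) K, r.IsHomogeneous i ∧ p - ℓ ^ j * r ∈ Ideal.span (Set.range f)) := by
  refine main (p := p) ⟨hm, hf, hd, hreg, hp, fun κ h => ?_, h2⟩
  rcases hκ κ h with h1 | h1
  · have h3 : ∀ j, ∃ q : Fin (m + 3) → K, κ j = lf q := fun j => exists_lf (h1 j)
    choose A hA using h3
    have h4 : κ = fun j => lf (A j) := funext hA
    rw [h4]
    exact prime_lin A
  · exact h1

end Pool.Agent.H868.TP
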